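import Mathlib

open Filter Topology

namespace Pool.Agent.Run7.h727.TB

theorem min_test (g g1 : ℝ → ℝ) (g2 t : ℝ) (h1 : ∀ s, HasDerivAt g (g1 s) s)
    (h2 : HasDerivAt g1 g2 t) (hm : IsLocalMin g t) : g1 t = 0 ∧ 0 ≤ g2 := by
  have h0 : g1 t = 0 := hm.hasDerivAt_eq_zero (h1 t)
  refine ⟨h0, ?_⟩
  by_contra hlt
  push Not at hlt
  have hd : deriv g = g1 := funext fun s => (h1 s).deriv
  have hdd : deriv (deriv g) t = g2 := by rw [hd]; exact h2.deriv
  have hmax : IsLocalMax g t := by
    refine isLocalMax_of_deriv_deriv_neg (by rw [hdd]; exact hlt) (by rw [hd]; exact h0)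
      (h1 t).continuousAt
  have heq : g =ᶠ[𝓝 t] fun _ => g t := by
    filter_upwards [hm, hmax] with s ha hb
    exact le_antisymm hb ha
  have h3 : deriv g =ᶠ[𝓝 t] fun _ => (0 : ℝ) := by
    have := heq.deriv
    simpa using this
  have h4 : deriv (deriv g) t = 0 := by
    rw [h3.deriv_eq]; simp
  rw [hdd] at h4
  linarith

theorem ex_min (g : Fin 3 → ℝ → ℝ) (T : ℝ) (hT : 0 < T) (hc : ∀ i, Continuous (g i))
    (hp : ∀ i t, g i (t + T) = g i t) :
    ∃ t k, (∀ i, g i t ≤ g k t) ∧ ((∀ i, i ≠ k → g i t < g k t) → IsLocalMin (g k) t) := by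
  set M : ℝ → ℝ := fun t => Finset.univ.sup' ⟨0, Finset.mem_univ _⟩ (fun i => g i t) with hM
  have hMc : Continuous M := by
    have := Continuous.finset_sup'_apply (s := (Finset.univ : Finset (Fin 3)))
      (f := fun i => g i) ⟨0, Finset.mem_univ _⟩ (fun i _ => hc i)
    exact this
  have hMp : Function.Periodic M T := by
    intro t
    simp only [hM, hp]
  obtain ⟨t, ht, hmin⟩ := (isCompact_Icc (a := (0:ℝ)) (b := T)).exists_isMinOn
    ⟨0, by simp [hT.le]⟩ hMc.continuousOn
  have hglob : ∀ s, M t ≤ M s := by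
    intro s
    obtain ⟨y, hy, hys⟩ := hMp.exists_mem_Ico₀ hT s
    rw [hys]
    exact hmin ⟨hy.1, hy.2.le⟩
  obtain ⟨k, -, hk⟩ := Finset.exists_mem_eq_sup' (s := (Finset.univ : Finset (Fin 3)))
    ⟨0, Finset.mem_univ _⟩ (fun i => g i t)
  have hk' : M t = g k t := hk
  have hle : ∀ i s, g i s ≤ M s := fun i s =>
    Finset.le_sup' (f := fun i => g i s) (Finset.mem_univ i)
  refine ⟨t, k, fun i => hk' ▸ hle i t, fun hlt => ?_⟩
  -- near t, M = g k
  have hev : ∀ᶠ s in 𝓝 t, ∀ i, i ≠ k → g i s < g k s := by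
    rw [eventually_all]
    intro i
    by_cases hik : i = k
    · exact Eventually.of_forall fun s h => absurd hik h
    · have := (hc i).continuousAt.eventually_lt (hc k).continuousAt (hlt i hik)
      filter_upwards [this] with s hs _ using hs
  filter_upwards [hev] with s hs
  have h5 : M s = g k s := by
    apply le_antisymm
    · refine Finset.sup'_le _ _ fun i _ => ?_
      by_cases hik : i = k
      · rw [hik]
      · exact (hs i hik).le
    · exact hle k s
  rw [← hk', ← h5]
  exact hglob s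

end Pool.Agent.Run7.h727.TB
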